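import Mathlib
import Pool.Agent.H.MP_869403_co.A

set_option autoImplicit false
open Finset

namespace Pool.Agent.Results.MP_869403_co.Log

open Pool.Agent.H.MP_869403_co.A in
theorem result (r p n : ℕ) (hp : p + 1 ≤ r) (hr : 2 * (r + 2) ≤ (p + 2) * 2 ^ p) (hn : r ≤ n) :
    ∃ D : Finset (Fin n) → Fin r → Fin n, (∀ e, e.card = r → univ.image (D e) = e) ∧
      ∀ S : Finset (Fin n),
        (∀ u, u ∉ S → ∃ e : Finset (Fin n), e.card = r ∧ u ∈ e ∧
          ∀ i : Fin r, i.val < p → D e i ∈ S) →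
        Real.logb 2 n / 4 - 1 ≤ S.card := by
  classical
  have key : ∀ f : Fin n → Fin n → Bool, ∀ e : Finset (Fin n), ∃ d : Fin r → Fin n,
      e.card = r → univ.image d = e ∧ ∀ u ∈ e, (∃ i : Fin r, i.val < p ∧ d i = u) ∨
        ∃ i : Fin r, i.val < p ∧ ¬ beat f u (d i) := by
    intro f e
    by_cases he : e.card = r
    swap
    · exact ⟨fun _ => ⟨0, by omega⟩, fun h => absurd h he⟩
    obtain ⟨P, h1, h2, h3⟩ := small (beat f) (by
      rintro u a (⟨a, b⟩ | ⟨a, b⟩) (⟨c, d⟩ | ⟨c, d⟩)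
      · exact a.not_gt c
      · simp [b] at d
      · simp [b] at d
      · exact a.not_gt c) p e (he ▸ hr)
    let l := P.toList ++ (e \ P).toList
    have hl : l.length = r := by
      simp only [l, List.length_append, length_toList, card_sdiff_of_subset h1]
      have := card_le_card h1
      omega
    have hP : ∀ a ∈ P, ∃ i : Fin r, i.val < p ∧ l[i.val]'(by omega) = a := by
      intro a ha
      obtain ⟨i, hi, rfl⟩ := List.getElem_of_mem (mem_toList.2 ha)
      have := hi
      rw [length_toList] at this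
      exact ⟨⟨i, by omega⟩, by simp only; omega, List.getElem_append_left hi⟩
    refine ⟨fun i => l[i.val]'(by omega), fun _ => ⟨?_, fun u hu => ?_⟩⟩
    · have m : ∀ x, x ∈ l ↔ x ∈ e := fun x => by
        simp only [l, List.mem_append, mem_toList, mem_sdiff]
        have := @h1 x
        tauto
      ext x
      simp only [mem_image, mem_univ, true_and]
      refine ⟨fun ⟨i, h⟩ => h ▸ (m _).1 (List.getElem_mem _), fun h => ?_⟩
      obtain ⟨i, hi, rfl⟩ := List.getElem_of_mem ((m x).2 h)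
      exact ⟨⟨i, by omega⟩, rfl⟩
    · by_cases h : u ∈ P
      · exact Or.inl (hP u h)
      · obtain ⟨a, ha, b⟩ := h3 u hu h
        obtain ⟨i, hi, rfl⟩ := hP a ha
        exact Or.inr ⟨i, hi, b⟩
  have n0 : n ≠ 0 := by omega
  have l1 : Real.logb 2 n ≤ Nat.log 2 n + 1 := by
    rw [Real.logb_le_iff_le_rpow (by norm_num) (by positivity)]
    have := (Nat.lt_pow_succ_log_self (b := 2) (by norm_num) n).le
    exact_mod_cast this
  obtain ⟨f, hf⟩ : ∃ f : Fin n → Fin n → Bool, ∀ S : Finset (Fin n),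
      S.card + 1 ≤ Nat.log 2 n / 4 → ∃ u, u ∉ S ∧ ∀ a ∈ S, beat f u a := by
    by_cases h : Nat.log 2 n / 4 = 0
    · exact ⟨fun _ _ => true, fun S x => by omega⟩
    · obtain ⟨f, hf⟩ := tour n (Nat.log 2 n / 4 - 1) ((Nat.pow_le_pow_right (by norm_num)
        (by omega)).trans (Nat.pow_log_le_self 2 n0))
      exact ⟨f, fun S x => hf S (by omega)⟩
  choose D hD using key f
  refine ⟨D, fun e he => (hD e he).1, fun S hS => ?_⟩
  have : Nat.log 2 n ≤ 4 * S.card + 3 := by
    by_contra c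
    obtain ⟨u, h1, h2⟩ := hf S (by omega)
    obtain ⟨e, a, b, d⟩ := hS u h1
    rcases (hD e a).2 u b with ⟨i, x, rfl⟩ | ⟨i, x, y⟩
    exacts [h1 (d i x), y (h2 _ (d i x))]
  have : (Nat.log 2 n : ℝ) ≤ 4 * S.card + 3 := by exact_mod_cast this
  linarith

end Pool.Agent.Results.MP_869403_co.Log
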