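import Mathlib
import Pool.Agent.H.MP_2e63e7_co.A

set_option autoImplicit false
open Finset

namespace Pool.Agent.Results.MP_869403_co.One

open Classical in
theorem greedy {ι κ : Type} [Fintype ι] [Fintype κ] (w : ι → ℝ) (v : κ → ℝ) (hw : ∀ i, 0 ≤ w i)
    (h1 : ∑ i, w i = 1) (hv : ∀ k, 0 ≤ v k) (R : ι → κ → Prop) (t : ℝ) (t0 : 0 ≤ t)
    (h : ∀ k, ∑ i with ¬ R i k, w i ≤ t) (s : ℕ) :
    ∃ S : Finset ι, S.card ≤ s ∧ ∑ k with ∀ i ∈ S, ¬ R i k, v k ≤ t ^ s * ∑ k, v k := by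
  induction s with
  | zero => exact ⟨∅, by simp⟩
  | succ s ih =>
    obtain ⟨S, a, b⟩ := ih
    obtain ⟨i, c⟩ : ∃ i, ∑ k with ¬ R i k ∧ ∀ i ∈ S, ¬ R i k, v k ≤
        t * ∑ k with ∀ i ∈ S, ¬ R i k, v k := by
      by_contra hn
      push Not at hn
      obtain ⟨j, -, hj⟩ : ∃ j ∈ univ, 0 < w j := by
        simpa using exists_lt_of_sum_lt (s := univ) (f := fun _ => (0 : ℝ)) (g := w) (by simp [h1])
      have := sum_lt_sum (s := univ) (fun i _ => mul_le_mul_of_nonneg_left (hn i).le (hw i))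
        ⟨j, mem_univ _, mul_lt_mul_of_pos_left (hn j) hj⟩
      rw [← sum_mul, h1, one_mul] at this
      refine this.not_ge ?_
      simp only [sum_filter, mul_sum]
      rw [sum_comm]
      refine sum_le_sum fun k _ => ?_
      by_cases e : ∀ i ∈ S, ¬ R i k
      · rw [if_pos e]
        refine le_trans (le_of_eq ?_) (mul_le_mul_of_nonneg_right (h k) (hv k))
        rw [sum_filter, sum_mul]
        refine sum_congr rfl fun i _ => ?_
        by_cases f : R i k
        · simp [f]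
        · rw [if_pos ⟨f, e⟩, if_pos f]
      · rw [if_neg e, mul_zero]
        exact (sum_eq_zero fun i _ => by rw [if_neg fun x => e x.2, mul_zero]).le
    refine ⟨insert i S, (card_insert_le _ _).trans (by omega), ?_⟩
    simp only [forall_mem_insert]
    rw [pow_succ', mul_assoc]
    exact c.trans (mul_le_mul_of_nonneg_left b t0)

theorem greedy2 {ι κ : Type} [Fintype ι] [Fintype κ] (w : ι → ℝ) (v : κ → ℝ) (hw : ∀ i, 0 ≤ w i)
    (h1 : ∑ i, w i = 1) (hv : ∀ k, 0 ≤ v k) (R : ι → κ → Prop) (t : ℝ) (t0 : 0 ≤ t)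
    (h : ∀ k, ∀ J : Finset ι, (∀ i, i ∈ J ↔ ¬ R i k) → ∑ i ∈ J, w i ≤ t) (s : ℕ) :
    ∃ S : Finset ι, S.card ≤ s ∧ ∀ K : Finset κ, (∀ k ∈ K, ∀ i ∈ S, ¬ R i k) →
      ∑ k ∈ K, v k ≤ t ^ s * ∑ k, v k := by
  obtain ⟨S, a, b⟩ := greedy w v hw h1 hv R t t0 (fun k => h k _ (by simp)) s
  exact ⟨S, a, fun K hK => (sum_le_sum_of_subset_of_nonneg
    (fun k hk => by simpa using hK k hk) fun k _ _ => hv k).trans b⟩

open Classical in
theorem core (r n : ℕ) (hr : 3 ≤ r) (D : Finset (Fin n) → Fin r → Fin n)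
    (hD : ∀ e, e.card = r → univ.image (D e) = e) (m l s : ℕ) (hm : 2 ≤ m)
    (hl : (1 - 1 / (m : ℝ)) ^ l < 1 / m) (hs : n < m ^ s) :
    ∃ S : Finset (Fin n), (∀ u, u ∉ S → ∃ e : Finset (Fin n), e.card = r ∧ u ∈ e ∧
      ∀ i : Fin r, i.val < 1 → D e i ∈ S) ∧ S.card ≤ max (l + r) s := by
  let dom : Fin n → Fin n → Prop := fun a u => u = a ∨ ∃ e : Finset (Fin n), e.card = r ∧ u ∈ e ∧
    D e ⟨0, by omega⟩ = a
  suffices h : ∃ S : Finset (Fin n), (∀ u, ∃ a ∈ S, dom a u) ∧ S.card ≤ max (l + r) s by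
    obtain ⟨S, a, b⟩ := h
    refine ⟨S, fun u hu => ?_, b⟩
    obtain ⟨c, hc, rfl | ⟨e, d, f, g⟩⟩ := a u
    · exact absurd hc hu
    · refine ⟨e, d, f, fun i hi => ?_⟩
      rwa [show i = ⟨0, by omega⟩ from Fin.ext (by simp only; omega), g]
  by_contra hn
  push Not at hn
  have m0 : (0 : ℝ) < m := by positivity
  have hn1 : l + r < n := by
    have := hn univ fun u => ⟨u, mem_univ _, Or.inl rfl⟩
    simp only [card_univ, Fintype.card_fin] at this
    omega
  rcases Pool.Agent.H.MP_2e63e7_co.alt (V := Fin n) (κ := Fin n)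
    (fun u a => (if ¬ dom a u then 1 else 0) - 1 / (m : ℝ)) with ⟨g, g0, hg⟩ | ⟨ι, _, w, z, w0, w1, hw⟩
  · have p : 0 < ∑ x, g x := by
      refine lt_of_le_of_ne (sum_nonneg fun x _ => g0 x) fun e => ?_
      have := (sum_eq_zero_iff_of_nonneg fun x _ => g0 x).1 e.symm
      simpa [fun x => this x (mem_univ _)] using hg ⟨0, by omega⟩
    obtain ⟨S, a, b⟩ := greedy2 (fun a => g a / ∑ x, g x) (fun _ : Fin n => (1 : ℝ))
      (fun a => div_nonneg (g0 a) p.le) (by rw [← sum_div, div_self p.ne']) (by simp) dom (1 / m)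
      (by positivity) (fun u J hJ => by
        have := hg u
        simp only [mul_sub, sum_sub_distrib, ← sum_mul, mul_ite, mul_one, mul_zero, ← hJ,
          sum_ite_mem, univ_inter] at this
        rw [← sum_div, div_le_iff₀ p]
        linarith) s
    replace b := b (univ.filter fun k => ∀ i ∈ S, ¬ dom i k) fun k hk => (mem_filter.1 hk).2
    simp only [sum_const, nsmul_eq_mul, mul_one, card_univ, Fintype.card_fin] at b
    have c : (1 / m : ℝ) ^ s * n < 1 := by
      rw [one_div, inv_pow, inv_mul_lt_iff₀ (by positivity), mul_one]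
      exact_mod_cast hs
    have d := card_eq_zero.1 (Nat.lt_one_iff.1 (by exact_mod_cast b.trans_lt c))
    refine (hn S fun u => ?_).not_ge (a.trans (le_max_right _ _))
    simpa using filter_eq_empty_iff.1 d (mem_univ u)
  · have hw' : ∀ a, 1 / (m : ℝ) ≤ ∑ i with ¬ dom a (z i), w i := by
      intro a
      have := hw a
      simp only [mul_sub, sum_sub_distrib, ← sum_mul, mul_ite, mul_one, mul_zero, w1] at this
      rw [sum_filter]
      linarith
    obtain ⟨S, a, b⟩ := greedy2 w w w0 w1 w0 (fun i k => ¬ dom (z k) (z i)) (1 - 1 / m)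
      (by
        rw [sub_nonneg, div_le_one m0]
        exact_mod_cast (by omega : 1 ≤ m)) (fun k J hJ => by
        have := sum_filter_add_sum_filter_not univ (fun i => ¬ dom (z k) (z i)) w
        rw [show (univ.filter fun i => ¬ ¬ dom (z k) (z i)) = J by ext; simp [hJ]] at this
        have := hw' (z k)
        linarith) l
    rw [w1, mul_one] at b
    obtain ⟨T, t1, -, t2⟩ := exists_subsuperset_card_eq (n := l + r) (subset_univ (S.image z))
      (card_image_le.trans (by omega)) (by simp; omega)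
    obtain ⟨x, hx⟩ : ∃ x, ∀ a ∈ T, ¬ dom a x := by
      by_contra c
      push Not at c
      exact (hn T c).not_ge (t2.le.trans (le_max_left _ _))
    obtain ⟨k, k1, i, i1, i2⟩ : ∃ k, ¬ dom x (z k) ∧ ∃ i ∈ S, ¬ dom (z k) (z i) := by
      by_contra c
      push Not at c
      refine ((hw' x).trans (b _ fun k hk => ?_)).not_gt hl
      simpa using c k (mem_filter.1 hk).2
    have zi := t1 (mem_image_of_mem z i1)
    obtain ⟨e, e1, e2, e3⟩ := exists_subsuperset_card_eq (n := r)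
      (show {x, z k, z i} ⊆ insert x (insert (z k) T) by simp [insert_subset_iff, zi])
      (card_le_three.trans hr) ((by omega : r ≤ T.card).trans
        (card_le_card ((subset_insert _ _).trans (subset_insert _ _))))
    have d : ∀ u ∈ e, dom (D e ⟨0, by omega⟩) u := fun u hu => Or.inr ⟨e, e3, hu, rfl⟩
    have f := e2 ((hD e e3).subset (mem_image_of_mem (D e) (mem_univ (⟨0, by omega⟩ : Fin r))))
    simp only [mem_insert] at f
    rcases f with f | f | f
    · exact k1 (f ▸ d _ (e1 (by simp)))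
    · exact i2 (f ▸ d _ (e1 (by simp)))
    · exact hx _ f (d _ (e1 (by simp)))

theorem result (r : ℕ) (hr : 3 ≤ r) : ∃ C : ℝ, ∀ n : ℕ, 16 ≤ n →
    ∀ D : Finset (Fin n) → Fin r → Fin n, (∀ e, e.card = r → univ.image (D e) = e) →
      ∃ S : Finset (Fin n),
        (∀ u, u ∉ S → ∃ e : Finset (Fin n), e.card = r ∧ u ∈ e ∧
          ∀ i : Fin r, i.val < 1 → D e i ∈ S) ∧
        (S.card : ℝ) ≤ C * (Real.log n / Real.log (Real.log n)) := by
  refine ⟨27 + r, fun n hn D hD => ?_⟩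
  have n0 : (16 : ℝ) ≤ n := by exact_mod_cast hn
  have l1 : 2 < Real.log n := by
    have := Real.log_le_log (by norm_num) n0
    rw [show (16 : ℝ) = 2 ^ 4 by norm_num, Real.log_pow] at this
    have := Real.log_two_gt_d9
    push_cast at *
    linarith
  have en : Real.exp (Real.log n) = n := Real.exp_log (by linarith)
  generalize Real.log n = L at l1 en
  obtain ⟨t, t0, rfl⟩ : ∃ t : ℝ, 0 < t ∧ t ^ 3 = L :=
    ⟨L ^ ((3 : ℕ) : ℝ)⁻¹, by positivity, Real.rpow_inv_natCast_pow (by linarith) (by norm_num)⟩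
  have t1 : 1 < t := by
    by_contra c
    linarith [pow_le_one₀ (n := 3) t0.le (not_lt.1 c)]
  have lt := Real.log_pos t1
  have l2 : Real.log t ≤ t := by linarith [Real.log_le_sub_one_of_pos t0]
  rw [Real.log_pow]
  push_cast
  have q : t ^ 2 ≤ 3 * (t ^ 3 / (3 * Real.log t)) := by
    rw [mul_div_assoc', le_div_iff₀ (by positivity)]
    nlinarith [mul_le_mul_of_nonneg_left l2 (sq_nonneg t)]
  have q1 : 1 ≤ t ^ 3 / (3 * Real.log t) := by
    rw [le_div_iff₀ (by positivity), ← Nat.cast_ofNat, ← Real.log_pow]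
    linarith [Real.log_le_sub_one_of_pos (pow_pos t0 3)]
  have hq : t ^ 3 = 3 * (t ^ 3 / (3 * Real.log t)) * Real.log t := by field_simp
  generalize t ^ 3 / (3 * Real.log t) = Q at q q1 hq
  have m1 : t ≤ (⌊t⌋₊ + 2 : ℕ) := by
    push_cast
    linarith [Nat.lt_floor_add_one t]
  have m2 : ((⌊t⌋₊ + 2 : ℕ) : ℝ) ≤ 3 * t := by
    push_cast
    linarith [Nat.floor_le t0.le]
  have m3 : 2 ≤ ⌊t⌋₊ + 2 := by omega
  generalize ⌊t⌋₊ + 2 = m at m1 m2 m3
  have m0 : (0 : ℝ) < m := by linarith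
  obtain ⟨S, a, b⟩ := core r n hr D hD m (m * m) (⌊3 * Q⌋₊ + 1) m3 (by
    have a : (1 - 1 / (m : ℝ)) ^ (m * m) ≤ Real.exp (-(1 / m)) ^ (m * m) :=
      pow_le_pow_left₀ (by rw [sub_nonneg, div_le_one m0]; linarith)
        (by linarith [Real.add_one_le_exp (-(1 / m : ℝ))]) _
    refine a.trans_lt ?_
    rw [← Real.exp_nat_mul, show ((m * m : ℕ) : ℝ) * -(1 / m) = -m by push_cast; field_simp,
      Real.exp_neg, one_div]
    exact inv_strictAnti₀ m0 (by linarith [Real.add_one_le_exp (m : ℝ)])) (by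
    have : (n : ℝ) < m ^ (⌊3 * Q⌋₊ + 1) := by
      rw [← en, ← Real.exp_log m0, ← Real.exp_nat_mul, Real.exp_lt_exp, hq]
      push_cast
      exact mul_lt_mul (Nat.lt_floor_add_one _) (Real.log_le_log t0 m1) lt (by positivity)
    exact_mod_cast this)
  refine ⟨S, a, (Nat.cast_le.2 b).trans ?_⟩
  have r0 : (0 : ℝ) ≤ r := by positivity
  have := mul_le_mul_of_nonneg_left q1 r0
  push_cast
  refine max_le ?_ ?_
  · nlinarith [mul_le_mul m2 m2 m0.le (by positivity)]
  · have := Nat.floor_le (show 0 ≤ 3 * Q by positivity)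
    nlinarith

end Pool.Agent.Results.MP_869403_co.One
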